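import Mathlib

/-!
# Restricted sums with boundedly many summands

For every `β < 1`, all large primes `p` and every `k` with `3 ≤ k ≤ η p` there are a set `A ⊆ ℤ_p`
with `η p ≤ |A| = n < (1 - β) p / 2` and a set `F ⊆ A × A` of forbidden pairs of maximum degree at
most `d = n - k` such that `|A +_F B'| ≤ 2 n - 2 d - 2` for every `B' ⊆ A`.
-/

set_option autoImplicit false

namespace Pool.Agent.Results.MP_3562eb_co.LinearRange

open Finset

/-- The maximum degree `d(F)` of a set `F` of forbidden pairs, viewed as a bipartite graph between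
two copies of `A`. -/
def maxDeg {p : ℕ} (A : Finset (ZMod p)) (F : Finset (ZMod p × ZMod p)) : ℕ :=
  max (A.sup fun a => (A.filter fun b => (a, b) ∈ F).card)
    (A.sup fun b => (A.filter fun a => (a, b) ∈ F).card)

/-- The restricted sum `A +_F B`: all `a + b` with `a ∈ A`, `b ∈ B` and `(a, b) ∉ F`. -/
def rsum {p : ℕ} (A B : Finset (ZMod p)) (F : Finset (ZMod p × ZMod p)) : Finset (ZMod p) :=
  ((A ×ˢ B).filter fun q => q ∉ F).image fun q => q.1 + q.2

/-- the wall pattern, as a set of integers -/
def inS (p M t s : ℕ) (z : ℤ) : Prop :=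
  ((M : ℤ) * t - p ≤ z ∧ z < M) ∨ (0 ≤ z ∧ z < M * t ∧ z % M ≤ s)

/-- the wall pattern, as a set of residues -/
def V (p M t s : ℕ) : Set (ZMod p) := {x | ∃ z : ℤ, inS p M t s z ∧ (z : ZMod p) = x}

/-- the allowed sums, as integers -/
noncomputable def Ei (M s : ℕ) : Finset ℤ := insert (M : ℤ) (insert (-(M : ℤ)) ((Icc (-(s : ℤ)) s).erase 0))

lemma card_Ei (M s : ℕ) : (Ei M s).card ≤ 2 * s + 2 := by
  unfold Ei
  refine (card_insert_le _ _).trans ?_
  have h1 := card_insert_le (-(M : ℤ)) ((Icc (-(s : ℤ)) s).erase 0)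
  have h2 : ((Icc (-(s : ℤ)) s).erase 0).card = 2 * s := by
    rw [card_erase_of_mem (by simp), Int.card_Icc]
    omega
  omega

lemma abs_le_of_mem_Ei {M s : ℕ} (hs : s < M) {e : ℤ} (he : e ∈ Ei M s) : |e| ≤ M := by
  unfold Ei at he
  rw [mem_insert, mem_insert, mem_erase, mem_Icc] at he
  rw [abs_le]
  omega

lemma mem_V_of {p M t s : ℕ} {z : ℤ} (h : inS p M t s z) : (z : ZMod p) ∈ V p M t s := ⟨z, h, rfl⟩

lemma mem_V_sub {p M t s : ℕ} {z : ℤ} (h : inS p M t s (z - p)) : (z : ZMod p) ∈ V p M t s :=
  ⟨z - p, h, by push_cast; simp⟩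

lemma mem_V_add {p M t s : ℕ} {z : ℤ} (h : inS p M t s (z + p)) : (z : ZMod p) ∈ V p M t s :=
  ⟨z + p, h, by push_cast; simp⟩

/-- every point of the pattern has `s + 2` neighbours in the pattern -/
lemma neighbours {p M t s : ℕ} (hs1 : 1 ≤ s) (hsM : s < M) (ht : 3 ≤ t) (h1 : M * t + M ≤ p)
    (z : ℤ) (hz : inS p M t s z) :
    ∃ N : Finset ℤ, N ⊆ Ei M s ∧ s + 2 ≤ N.card ∧ ∀ e ∈ N, ((z + e : ℤ) : ZMod p) ∈ V p M t s := by
  have hM : (0 : ℤ) < M := by omega
  have h3 : (3 : ℤ) * M ≤ M * t := by
    have : (3 : ℤ) ≤ t := by exact_mod_cast ht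
    nlinarith
  have h1' : (M : ℤ) * t + M ≤ p := by exact_mod_cast h1
  rcases lt_or_ge z M with hzM | hzM
  · -- the horizontal wall
    have hlow : (M : ℤ) * t - p ≤ z := by
      rcases hz with h | h <;> omega
    refine ⟨insert (if z < 0 then (M : ℤ) else -M)
      (insert (if z = (M : ℤ) * t - p then -(M : ℤ) else -1) (Icc 1 (s : ℤ))), ?_, ?_, ?_⟩
    · intro e he
      unfold Ei
      simp only [mem_insert, mem_erase, mem_Icc] at he ⊢
      split_ifs at he <;> omega
    · rw [card_insert_of_notMem, card_insert_of_notMem, Int.card_Icc]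
      · omega
      · simp only [mem_Icc]
        split_ifs <;> omega
      · simp only [mem_insert, mem_Icc]
        split_ifs
        · omega
        · rintro (h | h)
          · omega
          · omega
        · omega
        · omega
    · intro e he
      simp only [mem_insert, mem_Icc] at he
      rcases he with he | he | he
      · apply mem_V_of
        left
        split_ifs at he <;> omega
      · by_cases hzT : z = (M : ℤ) * t - p
        · rw [if_pos hzT] at he
          apply mem_V_add
          right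
          have h4 : z + e + p = M * (t - 1) := by
            rw [hzT, he]
            ring
          rw [h4]
          refine ⟨?_, ?_, ?_⟩
          · have : (3 : ℤ) ≤ t := by exact_mod_cast ht
            nlinarith
          · nlinarith
          · rw [Int.mul_emod_right]
            omega
        · rw [if_neg hzT] at he
          apply mem_V_of
          left
          omega
      · by_cases h4 : z + e < M
        · apply mem_V_of
          left
          omega
        · apply mem_V_of
          right
          refine ⟨by omega, by omega, ?_⟩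
          have h5 : z + e = (z + e - M) + M := by ring
          rw [h5, Int.add_emod_right, Int.emod_eq_of_lt (by omega) (by omega)]
          omega
  · -- a vertical wall
    have hz' : 0 ≤ z ∧ z < M * t ∧ z % M ≤ s := by
      rcases hz with h | h
      · omega
      · exact h
    obtain ⟨-, hzT, hi⟩ := hz'
    have hi0 : 0 ≤ z % M := Int.emod_nonneg _ hM.ne'
    have hdiv : (M : ℤ) * (z / M) + z % M = z := Int.mul_ediv_add_emod z M
    have hq : z / M < t := Int.ediv_lt_of_lt_mul hM (by rw [mul_comm]; exact hzT)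
    have hq0 : 0 ≤ z / M := Int.ediv_nonneg (by omega) hM.le
    have hq1 : (M : ℤ) * (z / M) ≤ M * t - M := by nlinarith
    have hq2 : 0 ≤ (M : ℤ) * (z / M) := by positivity
    refine ⟨insert (M : ℤ) (insert (-(M : ℤ)) ((Icc (-(z % M)) (s - z % M)).erase 0)), ?_, ?_, ?_⟩
    · intro e he
      unfold Ei
      simp only [mem_insert, mem_erase, mem_Icc] at he ⊢
      omega
    · rw [card_insert_of_notMem, card_insert_of_notMem, card_erase_of_mem, Int.card_Icc]
      · omega
      · rw [mem_Icc]
        omega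
      · rw [mem_erase, mem_Icc]
        omega
      · rw [mem_insert, mem_erase, mem_Icc]
        omega
    · intro e he
      simp only [mem_insert, mem_erase, mem_Icc] at he
      rcases he with he | he | ⟨-, he⟩
      · by_cases h4 : z + e < M * t
        · apply mem_V_of
          right
          refine ⟨by omega, h4, ?_⟩
          rw [he, Int.add_emod_right]
          exact hi
        · apply mem_V_sub
          left
          omega
      · apply mem_V_of
        right
        refine ⟨by omega, by omega, ?_⟩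
        rw [he, ← sub_eq_add_neg, Int.sub_emod_right]
        exact hi
      · apply mem_V_of
        right
        refine ⟨by omega, by omega, ?_⟩
        have h5 : z + e = (z % M + e) + M * (z / M) := by
          linarith
        rw [h5, Int.add_mul_emod_self_left, Int.emod_eq_of_lt (by omega) (by omega)]
        omega

section main

variable (p M t s : ℕ) [NeZero p]

open Classical in
/-- The set `A`: the pattern and its reflection. -/
noncomputable def setA : Finset (ZMod p) :=
  Finset.univ.filter fun x => x ∈ V p M t s ∨ -x ∈ V p M t s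

lemma mem_setA (x : ZMod p) : x ∈ setA p M t s ↔ x ∈ V p M t s ∨ -x ∈ V p M t s := by
  unfold setA
  simp

/-- The allowed sums. -/
noncomputable def setE (p M s : ℕ) : Finset (ZMod p) := (Ei M s).image (Int.cast : ℤ → ZMod p)

omit [NeZero p] in
lemma card_setE : (setE p M s).card ≤ 2 * s + 2 := card_image_le.trans (card_Ei M s)

omit [NeZero p] in
lemma cast_inj {e e' : ℤ} (h : |e - e'| < p) (h2 : (e : ZMod p) = (e' : ZMod p)) : e = e' := by
  have h3 : (p : ℤ) ∣ e - e' := by
    have := (ZMod.intCast_eq_intCast_iff_dvd_sub e' e p).1 h2.symm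
    exact this
  have := Int.eq_zero_of_abs_lt_dvd h3 h
  omega

variable {p M t s}

lemma partners (hs1 : 1 ≤ s) (hsM : s < M) (ht : 3 ≤ t) (h1 : M * t + M ≤ p) (x : ZMod p)
    (hx : x ∈ setA p M t s) :
    s + 2 ≤ ((setA p M t s).filter fun b => x + b ∈ setE p M s).card := by
  have h2M : 2 * M < p := by nlinarith
  have key : ∀ y : ZMod p, y ∈ V p M t s → ∃ N : Finset ℤ, N ⊆ Ei M s ∧ s + 2 ≤ N.card ∧
      ∀ e ∈ N, y + (e : ZMod p) ∈ V p M t s := by
    rintro y ⟨z, hz, rfl⟩
    obtain ⟨N, hN1, hN2, hN3⟩ := neighbours hs1 hsM ht h1 z hz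
    refine ⟨N, hN1, hN2, fun e he => ?_⟩
    have := hN3 e he
    push_cast at this
    exact this
  have hinj : ∀ N : Finset ℤ, N ⊆ Ei M s → ∀ e ∈ N, ∀ e' ∈ N, (e : ZMod p) = (e' : ZMod p) →
      e = e' := by
    intro N hN e he e' he' hee
    apply cast_inj p _ hee
    have h3 := abs_le_of_mem_Ei hsM (hN he)
    have h4 := abs_le_of_mem_Ei hsM (hN he')
    have h5 := abs_sub e e'
    have : (2 : ℤ) * M < p := by exact_mod_cast h2M
    linarith
  have hneg : ∀ e ∈ Ei M s, -e ∈ Ei M s := by
    intro e he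
    unfold Ei at *
    simp only [mem_insert, mem_erase, mem_Icc] at *
    omega
  rw [mem_setA] at hx
  rcases hx with hx | hx
  · obtain ⟨N, hN1, hN2, hN3⟩ := key x hx
    refine hN2.trans ?_
    apply card_le_card_of_injOn (fun e : ℤ => -(x + (e : ZMod p)))
    · intro e he
      simp only [coe_filter, Set.mem_ofPred_eq]
      have he' : e ∈ N := he
      refine ⟨?_, ?_⟩
      · rw [mem_setA]
        right
        rw [neg_neg]
        exact hN3 e he'
      · have h5 : x + -(x + (e : ZMod p)) = ((-e : ℤ) : ZMod p) := by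
          push_cast
          ring
        rw [h5]
        exact mem_image_of_mem _ (hneg e (hN1 he'))
    · intro e he e' he' hee
      apply hinj N hN1 e he e' he'
      simpa using hee
  · obtain ⟨N, hN1, hN2, hN3⟩ := key (-x) hx
    refine hN2.trans ?_
    apply card_le_card_of_injOn (fun e : ℤ => -x + (e : ZMod p))
    · intro e he
      simp only [coe_filter, Set.mem_ofPred_eq]
      have he' : e ∈ N := he
      refine ⟨?_, ?_⟩
      · rw [mem_setA]
        left
        exact hN3 e he'
      · have h5 : x + (-x + (e : ZMod p)) = ((e : ℤ) : ZMod p) := by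
          ring
        rw [h5]
        exact mem_image_of_mem _ (hN1 he')
    · intro e he e' he' hee
      apply hinj N hN1 e he e' he'
      simpa using hee

lemma card_setA_le (hM : 0 < M) (h1 : M * t ≤ p) :
    (setA p M t s).card ≤ 2 * ((M + (p - M * t)) + t * (s + 1)) := by
  classical
  set U : Finset ℤ := Ico ((M : ℤ) * t - p) M ∪
    (Ico (0 : ℤ) ((M : ℤ) * t)).filter (fun z : ℤ => z % M ≤ s) with hU
  have hM' : (0 : ℤ) < M := by exact_mod_cast hM
  have h1' : (M : ℤ) * t ≤ p := by exact_mod_cast h1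
  have hUc : U.card ≤ (M + (p - M * t)) + t * (s + 1) := by
    refine (card_union_le _ _).trans (Nat.add_le_add ?_ ?_)
    · rw [Int.card_Ico]
      apply Int.toNat_le.2
      push_cast [Nat.cast_sub h1]
      linarith
    · have : ((Ico (0 : ℤ) ((M : ℤ) * t)).filter (fun z : ℤ => z % M ≤ s)).card ≤
          ((Ico (0 : ℤ) t) ×ˢ (Icc (0 : ℤ) s)).card := by
        apply card_le_card_of_injOn (fun z : ℤ => (z / M, z % M))
        · intro z hz
          simp only [coe_filter, mem_Ico, Set.mem_ofPred_eq] at hz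
          obtain ⟨⟨hz1, hz2⟩, hz3⟩ := hz
          simp only [coe_product, Set.mem_prod, coe_Ico, coe_Icc, Set.mem_Ico, Set.mem_Icc]
          exact ⟨⟨Int.ediv_nonneg hz1 hM'.le, Int.ediv_lt_of_lt_mul hM' (by rw [mul_comm]; exact hz2)⟩,
            Int.emod_nonneg _ hM'.ne', hz3⟩
        · intro a _ b _ h
          simp only [Prod.mk.injEq] at h
          rw [← Int.mul_ediv_add_emod a M, ← Int.mul_ediv_add_emod b M, h.1, h.2]
      refine this.trans (le_of_eq ?_)
      rw [card_product, Int.card_Ico, Int.card_Icc]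
      congr 1
  have hsub : setA p M t s ⊆ U.image (fun z : ℤ => (z : ZMod p)) ∪
      U.image (fun z : ℤ => -(z : ZMod p)) := by
    have hV : ∀ y : ZMod p, y ∈ V p M t s → ∃ z ∈ U, (z : ZMod p) = y := by
      rintro y ⟨z, hz, rfl⟩
      refine ⟨z, ?_, rfl⟩
      rw [hU, mem_union, mem_Ico, mem_filter, mem_Ico]
      rcases hz with h | ⟨h2, h3, h4⟩
      · exact Or.inl h
      · exact Or.inr ⟨⟨h2, h3⟩, h4⟩
    intro x hx
    rw [mem_setA] at hx
    rw [mem_union, mem_image, mem_image]
    rcases hx with h | h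
    · left
      exact hV x h
    · right
      obtain ⟨z, hz, hzx⟩ := hV _ h
      exact ⟨z, hz, by rw [hzx, neg_neg]⟩
  have h2 := card_le_card hsub
  have h3 := card_union_le (U.image (fun z : ℤ => (z : ZMod p))) (U.image (fun z : ℤ => -(z : ZMod p)))
  have h4 : (U.image (fun z : ℤ => (z : ZMod p))).card ≤ U.card := card_image_le
  have h5 : (U.image (fun z : ℤ => -(z : ZMod p))).card ≤ U.card := card_image_le
  omega

lemma le_card_setA (h1 : M * t + M ≤ p) : M ≤ (setA p M t s).card := by
  have : (range M).card ≤ (setA p M t s).card := by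
    apply card_le_card_of_injOn (fun k : ℕ => ((k : ℤ) : ZMod p))
    · intro k hk
      simp only [coe_range, Set.mem_Iio] at hk
      have h1' : (M : ℤ) * t + M ≤ p := by exact_mod_cast h1
      show ((k : ℤ) : ZMod p) ∈ setA p M t s
      rw [mem_setA]
      left
      exact ⟨k, Or.inl ⟨by omega, by omega⟩, rfl⟩
    · intro a ha b hb h
      simp only [coe_range, Set.mem_Iio] at ha hb
      have hMp : M ≤ p := by nlinarith
      have h2 : ((a : ℤ)) = (b : ℤ) := by
        apply cast_inj p _ h
        rw [abs_lt]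
        omega
      exact_mod_cast h2
  simpa using this

end main

/-- For every `β < 1` there is `η > 0` such that for all large primes `p` and every integer `k`
with `3 ≤ k ≤ η p` there are a set `A ⊆ ℤ_p` with `η p ≤ |A| < (1 - β) p / 2` and a set
`F ⊆ A × A` of forbidden pairs with maximum degree at most `d = |A| - k` such that
`|A +_F B| ≤ 2 |A| - 2 d - 2` for every subset `B` of `A`. -/
theorem result (β : ℝ) (hβ : β < 1) :
    ∃ η : ℝ, 0 < η ∧ ∃ p₀ : ℕ, ∀ p : ℕ, p₀ ≤ p → p.Prime → ∀ k : ℕ, 3 ≤ k → (k : ℝ) ≤ η * p →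
      ∃ (A : Finset (ZMod p)) (F : Finset (ZMod p × ZMod p)) (d : ℕ),
        F ⊆ A ×ˢ A ∧ η * p ≤ (A.card : ℝ) ∧ (A.card : ℝ) < (1 - β) * p / 2 ∧
        d + k = A.card ∧ maxDeg A F ≤ d ∧
        ∀ B ⊆ A, ((rsum A B F).card : ℤ) ≤ 2 * (A.card : ℤ) - 2 * (d : ℤ) - 2 := by
  classical
  set γ : ℝ := min (1 - β) 1 with hγ
  have hγ0 : 0 < γ := lt_min (by linarith) one_pos
  have hγ1 : γ ≤ 1 := min_le_right _ _
  have hγβ : γ ≤ 1 - β := min_le_left _ _
  refine ⟨γ ^ 2 / 2048, by positivity, ⌈64 / γ⌉₊ + 1, ?_⟩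
  intro p hp hpp k hk3 hkη
  have : NeZero p := ⟨hpp.ne_zero⟩
  have hp1 : (64 : ℝ) / γ ≤ p := by
    have h1 : (64 : ℝ) / γ ≤ (⌈64 / γ⌉₊ : ℝ) := Nat.le_ceil _
    have h2 : ((⌈64 / γ⌉₊ + 1 : ℕ) : ℝ) ≤ p := by exact_mod_cast hp
    push_cast at h2
    linarith
  have hp2 : 64 ≤ γ * p := by
    rw [div_le_iff₀ hγ0] at hp1
    linarith
  have hp0 : (0 : ℝ) < p := by
    have := hpp.pos
    exact_mod_cast this
  set M : ℕ := ⌊γ * p / 32⌋₊ with hMdef
  have hMle : (M : ℝ) ≤ γ * p / 32 := Nat.floor_le (by positivity)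
  have hMlt : γ * p / 32 < M + 1 := Nat.lt_floor_add_one _
  have hMge : γ * p / 64 ≤ M := by linarith
  have hM0' : (0 : ℝ) < M := lt_of_lt_of_le (by positivity) hMge
  have hM0 : 0 < M := by exact_mod_cast hM0'
  obtain ⟨s, rfl⟩ : ∃ s, k = s + 2 := ⟨k - 2, by omega⟩
  have hs1 : 1 ≤ s := by omega
  push_cast at hkη
  have hγ2 : γ ^ 2 ≤ γ := by nlinarith
  have hsM' : (s : ℝ) < M := by
    have h1 : γ ^ 2 / 2048 * p ≤ γ * p / 64 := by
      have : γ ^ 2 * p ≤ γ * p := mul_le_mul_of_nonneg_right hγ2 hp0.le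
      have h2 : 0 ≤ γ * p := by positivity
      calc γ ^ 2 / 2048 * p = γ ^ 2 * p / 2048 := by ring
        _ ≤ γ * p / 2048 := by linarith
        _ ≤ γ * p / 64 := by linarith
    linarith
  have hsM : s < M := by exact_mod_cast hsM'
  -- the number of rows
  have hq32 : 32 ≤ p / M := by
    rw [Nat.le_div_iff_mul_le hM0]
    have : (32 : ℝ) * M ≤ p := by nlinarith
    exact_mod_cast this
  obtain ⟨t, ht⟩ : ∃ t, p / M = t + 1 := ⟨p / M - 1, by omega⟩
  have ht3 : 3 ≤ t := by omega
  have hdm : M * (p / M) + p % M = p := Nat.div_add_mod p M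
  have hmod : p % M < M := Nat.mod_lt _ hM0
  rw [ht, Nat.mul_add, mul_one] at hdm
  have hT1 : M * t + M ≤ p := by omega
  have hT2 : p - M * t < 2 * M := by omega
  have htle : (t : ℝ) ≤ 64 / γ := by
    have h1 : ((M * t + M : ℕ) : ℝ) ≤ p := by exact_mod_cast hT1
    push_cast at h1
    rw [le_div_iff₀ hγ0]
    have h2 : γ * p / 64 * t ≤ M * t := mul_le_mul_of_nonneg_right hMge (by positivity)
    have h3 : γ * p / 64 * t ≤ p := by linarith
    have h4 : (γ * t) * p ≤ 64 * p := by
      calc (γ * t) * p = 64 * (γ * p / 64 * t) := by ring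
        _ ≤ 64 * p := by linarith
    have := le_of_mul_le_mul_right h4 hp0
    linarith
  set A := setA p M t s with hA
  set F := (A ×ˢ A).filter (fun q => ¬ (q.1 + q.2 ∈ setE p M s)) with hF
  have hcardle := card_setA_le (p := p) (s := s) hM0 (by omega : M * t ≤ p)
  have hcardge := le_card_setA (s := s) hT1
  rw [← hA] at hcardle hcardge
  have hpart : ∀ x ∈ A, s + 2 ≤ (A.filter fun b => x + b ∈ setE p M s).card :=
    fun x hx => partners hs1 hsM ht3 hT1 x hx
  have hAne : ∃ x, x ∈ A := by
    have : 0 < A.card := by omega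
    exact card_pos.1 this
  obtain ⟨x₀, hx₀⟩ := hAne
  have hkA : s + 2 ≤ A.card := (hpart x₀ hx₀).trans (card_filter_le _ _)
  have hnot : ∀ x ∈ A, (A.filter fun b => ¬ (x + b ∈ setE p M s)).card ≤ A.card - (s + 2) := by
    intro x hx
    have h2 := card_filter_add_card_filter_not (s := A) (fun b => x + b ∈ setE p M s)
    have h3 := hpart x hx
    omega
  refine ⟨A, F, A.card - (s + 2), filter_subset _ _, ?_, ?_, by omega, ?_, ?_⟩
  · have h1 : (M : ℝ) ≤ A.card := by exact_mod_cast hcardge
    have h2 : γ ^ 2 / 2048 * p ≤ γ * p / 64 := by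
      have : γ ^ 2 * p ≤ γ * p := mul_le_mul_of_nonneg_right hγ2 hp0.le
      have h2 : 0 ≤ γ * p := by positivity
      calc γ ^ 2 / 2048 * p = γ ^ 2 * p / 2048 := by ring
        _ ≤ γ * p / 2048 := by linarith
        _ ≤ γ * p / 64 := by linarith
    linarith
  · have h1 : (A.card : ℝ) ≤ 2 * (3 * M + t * (s + 1)) := by
      have : A.card ≤ 2 * (3 * M + t * (s + 1)) := by omega
      exact_mod_cast this
    have h2 : (t : ℝ) * (s + 1) ≤ 64 / γ * (γ ^ 2 / 2048 * p) := by
      apply mul_le_mul htle _ (by positivity) (by positivity)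
      linarith
    have h3 : 64 / γ * (γ ^ 2 / 2048 * p) = γ * p / 32 := by
      field_simp
      ring
    have h4 : γ * p ≤ (1 - β) * p := mul_le_mul_of_nonneg_right hγβ hp0.le
    have h5 : 0 < γ * p := by positivity
    rw [h3] at h2
    linarith
  · unfold maxDeg
    apply max_le
    · apply Finset.sup_le
      intro x hx
      refine le_trans (card_le_card ?_) (hnot x hx)
      intro b hb
      rw [mem_filter] at hb ⊢
      refine ⟨hb.1, ?_⟩
      have := hb.2
      rw [hF, mem_filter] at this
      exact this.2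
    · apply Finset.sup_le
      intro x hx
      refine le_trans (card_le_card ?_) (hnot x hx)
      intro b hb
      rw [mem_filter] at hb ⊢
      refine ⟨hb.1, ?_⟩
      have := hb.2
      rw [hF, mem_filter] at this
      have h2 := this.2
      simp only at h2
      rw [add_comm] at h2
      exact h2
  · intro B hB
    have himg : rsum A B F ⊆ setE p M s := by
      intro y hy
      unfold rsum at hy
      rw [mem_image] at hy
      obtain ⟨q, hq, rfl⟩ := hy
      rw [mem_filter, mem_product] at hq
      by_contra hcon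
      apply hq.2
      rw [hF, mem_filter, mem_product]
      exact ⟨⟨hq.1.1, hB hq.1.2⟩, hcon⟩
    have hle := (card_le_card himg).trans (card_setE p M s)
    have hle' : ((rsum A B F).card : ℤ) ≤ 2 * s + 2 := by exact_mod_cast hle
    rw [Nat.cast_sub hkA]
    push_cast
    linarith

end Pool.Agent.Results.MP_3562eb_co.LinearRange
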